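import Pool.Agent.Helper5.BD.GDefs

/-!
# Module GH2: drawings without crossings
-/

noncomputable section

open Finset Helper5.CR Classical Equiv Equiv.Perm

namespace Helper5.BD

variable {V E : Type} [Fintype E] {src tgt : E → V}

/-- GH2, from the normal form of the drawing -/
theorem exists_plane_map_of (P : PreDrawing src tgt) (hne : ∀ e, src e ≠ tgt e)
    (h : ∀ x, P.passes x ≤ 1)
    (hred : ∃ P' : PreDrawing src tgt, (∀ d, P'.Used d) ∧
      ∃ j : P.X → P'.X, Function.Injective j ∧
        ∀ e, ipts P' e = ((ipts P e).filter (fun x => decide (2 ≤ P.passes x))).map j) :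
    ∃ (D : Type) (_ : Fintype D) (σ α : Perm D) (en : D → V) (c : E → D), Planar σ α ∧
      (∀ d, α (α d) = d) ∧ (∀ d, α d ≠ d) ∧ (∀ d d', en d = en d' ↔ σ.SameCycle d d') ∧
      (∀ e, en (c e) = src e ∧ en (α (c e)) = tgt e) ∧ (∀ d, ∃ e, d = c e ∨ d = α (c e)) ∧
      Function.Injective c ∧ ∀ e e', c e ≠ α (c e') := by
  obtain ⟨Q, hU, j, -, hj⟩ := hred
  have hnil : ∀ e, (Q.route e).tail = [] := by
    intro e
    have h1 : (ipts P e).filter (fun x => decide (2 ≤ P.passes x)) = [] := by
      rw [List.filter_eq_nil_iff]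
      intro x _
      have := h x
      simp only [decide_eq_true_eq]
      omega
    have h2 := hj e
    rw [h1, List.map_nil] at h2
    exact List.map_eq_nil_iff.1 h2
  have hc : ∀ e, ∃ c, Q.route e = [c] := by
    intro e
    have hw := Q.route_walk e
    cases hr : Q.route e with
    | nil =>
      rw [hr] at hw
      exact absurd (Q.loc_inj hw) (hne e)
    | cons c l =>
      have h3 := hnil e
      rw [hr, List.tail_cons] at h3
      exact ⟨c, by rw [h3]⟩
  choose c hc using hc
  have hpc : ∀ e, Q.pt (c e) = Q.loc (src e) ∧ Q.pt (Q.α (c e)) = Q.loc (tgt e) := by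
    intro e
    have hw := Q.route_walk e
    rw [hc e] at hw
    exact ⟨hw.1, hw.2⟩
  have hall : ∀ d, ∃ e, d = c e ∨ d = Q.α (c e) := by
    intro d
    obtain ⟨e, he⟩ := hU d
    refine ⟨e, ?_⟩
    rw [hc e] at he
    rcases he with he | he
    · exact Or.inl (List.mem_singleton.1 he)
    · right
      rw [← List.mem_singleton.1 he, Q.α_invol]
  have hen : ∀ d, ∃ v, Q.loc v = Q.pt d := by
    intro d
    obtain ⟨e, rfl | rfl⟩ := hall d
    · exact ⟨src e, (hpc e).1.symm⟩
    · exact ⟨tgt e, (hpc e).2.symm⟩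
  choose en hen using hen
  have huse : ∀ d e e', e ≠ e' → ¬ (1 ≤ (Q.route e).count d + (Q.route e).count (Q.α d) ∧
      1 ≤ (Q.route e').count d + (Q.route e').count (Q.α d)) := by
    rintro d e e' hee ⟨h1, h2⟩
    have h3 := Q.route_use d
    have h4 : ∑ f ∈ ({e, e'} : Finset E), ((Q.route f).count d + (Q.route f).count (Q.α d)) ≤
        ∑ f, ((Q.route f).count d + (Q.route f).count (Q.α d)) :=
      Finset.sum_le_sum_of_subset (Finset.subset_univ _)
    rw [Finset.sum_pair hee] at h4
    omega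
  have hself : ∀ e, (Q.route e).count (c e) = 1 := by
    intro e
    rw [hc e]
    simp
  refine ⟨Q.D, Q.finD, Q.σ, Q.α, en, c, Q.planar, Q.α_invol, Q.α_ne, ?_, ?_, hall, ?_, ?_⟩
  · intro d d'
    rw [← Q.pt_iff, ← hen d, ← hen d']
    exact ⟨fun h5 => by rw [h5], fun h5 => Q.loc_inj h5⟩
  · intro e
    constructor
    · apply Q.loc_inj
      rw [hen, (hpc e).1]
    · apply Q.loc_inj
      rw [hen, (hpc e).2]
  · intro e e' hee
    by_contra hcon
    refine huse (c e) e e' hcon ⟨?_, ?_⟩
    · rw [hself]; omega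
    · rw [hee, hself]; omega
  · intro e e' hee
    by_cases h6 : e = e'
    · subst h6
      exact Q.α_ne _ hee.symm
    · refine huse (c e') e e' h6 ⟨?_, ?_⟩
      · rw [← hee, hself]; omega
      · rw [hself]; omega

end Helper5.BD
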